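import Pool.Agent.Lib.MP_144d21_co.XU.Iface

/-!
# MP_144d21_co, project X2: the bound (II) `beta >= 2 ^ (n - 3) * E(d)` for 4-connected graphs.
Definitions. Proofs on paper: PaperS.md (sections 1-5) and PaperC.md (chains) in this folder.
-/

set_option autoImplicit false

namespace Pool.Agent.Xu.X2

open Finset

variable {V : Type} [Fintype V] [DecidableEq V]

/-- `p` is in general position and all ranks at `p` are the largest possible ones -/
def Gen (p : V → Fin 3 → ℝ) : Prop :=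
  GP p ∧ ∀ (q : V → Fin 3 → ℝ) (G : SimpleGraph V) (S : Finset V), rk q G S ≤ rk p G S

/-- the potential `E(2j) = 3^(-j)`, `E(2j+1) = (2/3) 3^(-j)`; `d / 2` is the floor -/
noncomputable def EE (d : ℕ) : ℝ := (if d % 2 = 0 then 1 else 2 / 3) * (1 / 3) ^ (d / 2)

/-- degrees of freedom of `G[S]` (for `3 ≤ S.card`) -/
noncomputable def dd (p : V → Fin 3 → ℝ) (G : SimpleGraph V) (S : Finset V) : ℕ :=
  3 * S.card - 6 - rk p G S

/-- the target `2^(n-3) E(d)` -/
noncomputable def FF (p : V → Fin 3 → ℝ) (G : SimpleGraph V) (S : Finset V) : ℝ :=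
  2 ^ (S.card - 3) * EE (dd p G S)

/-- the loss for a family of `t` clusters -/
noncomputable def cc (t : ℕ) : ℝ := (3 / 4) ^ (t - 5)

/-- the complete graph on `T` -/
def cl (T : Finset V) : SimpleGraph V where
  Adj a b := a ≠ b ∧ a ∈ T ∧ b ∈ T
  symm := ⟨fun _ _ h => ⟨h.1.symm, h.2.2, h.2.1⟩⟩
  loopless := ⟨fun _ h => h.1 rfl⟩

/-- `T` separates `P` from `Q` in `G[S]`, `|T| = 3`; `P` and `Q` are the two sides -/
structure Cut3 (G : SimpleGraph V) (S T P Q : Finset V) : Prop where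
  card : T.card = 3
  un : T ∪ P ∪ Q = S
  tp : Disjoint T P
  tq : Disjoint T Q
  pq : Disjoint P Q
  pn : P.Nonempty
  qn : Q.Nonempty
  ne : ∀ a ∈ P, ∀ b ∈ Q, ¬ G.Adj a b

theorem Cut3.symm {G : SimpleGraph V} {S T P Q : Finset V} (h : Cut3 G S T P Q) :
    Cut3 G S T Q P :=
  ⟨h.card, by rw [union_assoc, union_comm Q P, ← union_assoc]; exact h.un, h.tq, h.tp, h.pq.symm,
    h.qn, h.pn, fun a ha b hb hab => h.ne b hb a ha hab.symm⟩

/-- a cluster: all pairs of `K` are implied by (or edges of) `G[S]` -/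
def Clus (p : V → Fin 3 → ℝ) (G : SimpleGraph V) (S K : Finset V) : Prop :=
  K ⊆ S ∧ ∀ u ∈ K, ∀ v ∈ K, row p u v ∈ rs p G S

/-- `t` clusters whose union meets both sides of every separation of order 3 -/
def Fam (p : V → Fin 3 → ℝ) (G : SimpleGraph V) (S : Finset V) (t : ℕ) : Prop :=
  ∃ th : Fin t → Finset V, (∀ k, Clus p G S (th k)) ∧
    ∀ T P Q, Cut3 G S T P Q → ∃ k, ∃ x ∈ P, x ∈ th k

/-- the bound for `G[S]` -/
def Bd (p : V → Fin 3 → ℝ) (G : SimpleGraph V) (S : Finset V) : Prop :=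
  ∀ t, Fam p G S t → cc t * FF p G S ≤ (bet G S : ℝ)

/-- the induction hypothesis -/
def IH (p : V → Fin 3 → ℝ) (G : SimpleGraph V) (S : Finset V) : Prop :=
  ∀ (G' : SimpleGraph V) (S' : Finset V),
    (S'.card < S.card ∨ (S'.card = S.card ∧ ne G' S' < ne G S)) → ThreeConn G' S' → Bd p G' S'

/-! ### Three vertices `t 0, t 1, t 2`; the pair `i` is `t (i+1), t (i+2)` (opposite to `t i`) -/

/-- the set `{t 0, t 1, t 2}` -/
def tS (t : Fin 3 → V) : Finset V := univ.image t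

/-- the pairs in `I` as a graph -/
def tE (t : Fin 3 → V) (I : Finset (Fin 3)) : SimpleGraph V where
  Adj a b := a ≠ b ∧ ∃ i ∈ I, (a = t (i + 1) ∧ b = t (i + 2)) ∨ (a = t (i + 2) ∧ b = t (i + 1))
  symm := ⟨fun _ _ h => ⟨h.1.symm, h.2.elim fun i hi => ⟨i, hi.1, hi.2.elim
    (fun h => Or.inr ⟨h.2, h.1⟩) fun h => Or.inl ⟨h.2, h.1⟩⟩⟩⟩
  loopless := ⟨fun _ h => h.1 rfl⟩

/-- the missing pairs -/
noncomputable def mis (G : SimpleGraph V) (t : Fin 3 → V) : Finset (Fin 3) := by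
  classical
  exact univ.filter fun i => ¬ G.Adj (t (i + 1)) (t (i + 2))

/-- the linear functionals on the three pairs that vanish on all combinations of the three rows
which lie in the row space of `G[S]` -/
def WW (p : V → Fin 3 → ℝ) (G : SimpleGraph V) (S : Finset V) (t : Fin 3 → V) :
    Submodule ℝ (Fin 3 → ℝ) where
  carrier := {ν | ∀ c : Fin 3 → ℝ, ∑ i, c i • row p (t (i + 1)) (t (i + 2)) ∈ rs p G S →
    ∑ i, c i * ν i = 0}
  zero_mem' := by intro c _; simp
  add_mem' := by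
    intro a b ha hb c hc
    simp only [Pi.add_apply, mul_add, sum_add_distrib, ha c hc, hb c hc, add_zero]
  smul_mem' := by
    intro r a ha c hc
    have h1 : ∑ i, c i * (r • a) i = r * ∑ i, c i * a i := by
      rw [mul_sum]
      exact sum_congr rfl fun i _ => by simp only [Pi.smul_apply, smul_eq_mul]; ring
    rw [h1, ha c hc, mul_zero]

/-- the restriction of `W` to the coordinates in `I` is injective -/
def Inj (W : Submodule ℝ (Fin 3 → ℝ)) (I : Finset (Fin 3)) : Prop :=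
  ∀ ν ∈ W, (∀ i ∈ I, ν i = 0) → ν = 0

/-- `I` is spanning on the side `G[S]`: `Inj (WW p G S t) I`; the defect of `I` -/
noncomputable def dfc (W : Submodule ℝ (Fin 3 → ℝ)) (I : Finset (Fin 3)) : ℕ :=
  Module.finrank ℝ (W ⊓ (⨅ i ∈ I, LinearMap.ker (LinearMap.proj i : (Fin 3 → ℝ) →ₗ[ℝ] ℝ)) :
    Submodule ℝ (Fin 3 → ℝ))

/-- contraction of the pair `i` on the side `S` (with all three edges present) -/
noncomputable def bc (G : SimpleGraph V) (S : Finset V) (t : Fin 3 → V) (i : Fin 3) : ℤ :=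
  bet (con (G ⊔ cl (tS t)) (t (i + 1)) (t (i + 2))) (S.erase (t (i + 1)))

/-- the side `S` with all three edges present -/
noncomputable def ba (G : SimpleGraph V) (S : Finset V) (t : Fin 3 → V) : ℤ :=
  bet (G ⊔ cl (tS t)) S

/-! ### Stars -/

/-- the star from `x i` to the later vertices of the list `x` -/
def stg {k : ℕ} (x : Fin k → V) (i : Fin k) : SimpleGraph V where
  Adj a b := a ≠ b ∧ ∃ j, i < j ∧ ((a = x i ∧ b = x j) ∨ (a = x j ∧ b = x i))
  symm := ⟨fun _ _ h => ⟨h.1.symm, h.2.elim fun j hj => ⟨j, hj.1, hj.2.elim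
    (fun h => Or.inr ⟨h.2, h.1⟩) fun h => Or.inl ⟨h.2, h.1⟩⟩⟩⟩
  loopless := ⟨fun _ h => h.1 rfl⟩

end Pool.Agent.Xu.X2
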