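import Pool.Agent.Lib.MP_144d21_co.X2.IfaceS
import Pool.Agent.Lib.MP_144d21_co.X2.H41.Struct2

/-!
# MP_144d21_co, project X2: module statements of case C (chains; helper41)

Definitions: `Chain G S h m b`, `inner b m`, `GoodChain`, `C3`, `Sepn` are in X2/H41/Struct.lean and
X2/H41/Struct2.lean (the structure lemma is proved there). Proofs: PaperC.md in this folder.
-/

set_option autoImplicit false

namespace Pool.Agent.Xu.X2

open Finset Pool.Agent.Xu.X2.H41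

/-- the three boundary vertices of a chain: `t 0 = h`, `t 1 = b 0`, `t 2 = b m`; pair 0 is
`b 0, b m`, pair 1 is `b m, h`, pair 2 is `h, b 0` -/
def cT {V : Type} (h : V) (b : ℕ → V) (m : ℕ) : Fin 3 → V := ![h, b 0, b m]

/-- CHF: the chain formula. Uses BETDC, CHI, CHIDC, CHIGL. -/
def ChfS : Prop := ∀ (V : Type) [Fintype V] [DecidableEq V] (G : SimpleGraph V) (S : Finset V)
  (h : V) (m : ℕ) (b : ℕ → V), Chain G S h m b →
  (∃ x ∈ S \ inner b m, ∃ y ∈ S \ inner b m, G.Adj x y) →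
  bet G S = ((m : ℤ) - 1) * bet (G ⊔ tE (cT h b m) {1, 2}) (S \ inner b m) +
    bet (G ⊔ tE (cT h b m) {0}) (S \ inner b m)

/-- RKCH: the chain is added by 0-extensions. Uses ZEX. -/
def RkchS : Prop := ∀ (V : Type) [Fintype V] [DecidableEq V] (p : V → Fin 3 → ℝ), GP p →
  ∀ (G : SimpleGraph V) (S : Finset V) (h : V) (m : ℕ) (b : ℕ → V), Chain G S h m b →
  rk p G S = rk p G (S \ inner b m) + (2 * m - 1) ∧
  ∀ x ∈ rs p G S, (∀ v ∈ inner b m, x v = 0) → x ∈ rs p G (S \ inner b m)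

/-- CLCH: an inner vertex is implied with no vertex which is not a neighbour. Uses ZEX, FOUR. -/
def ClchS : Prop := ∀ (V : Type) [Fintype V] [DecidableEq V] (p : V → Fin 3 → ℝ), Gen p →
  ∀ (G : SimpleGraph V) (S : Finset V) (h : V) (m : ℕ) (b : ℕ → V), Chain G S h m b → 3 ≤ m →
  ∀ i, 0 < i → i < m → ∀ x ∈ S, x ≠ b i → row p (b i) x ∈ rs p G S → x ∈ nb G S (b i)

/-- FAMC: the families of the rest. Uses RKCH, CLCH. -/
def FamcS : Prop := ∀ (V : Type) [Fintype V] [DecidableEq V] (p : V → Fin 3 → ℝ), Gen p →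
  ∀ (G : SimpleGraph V) (S : Finset V) (h : V) (m : ℕ) (b : ℕ → V) (n : ℕ), Chain G S h m b →
  3 ≤ m → Fam p G S n → ∃ tU tD : ℕ, tU + tD = n ∧ m - 1 ≤ 2 * tU ∧
  (∀ I, Clus p (G ⊔ tE (cT h b m) I) (S \ inner b m) (tS (cT h b m)) →
    Fam p (G ⊔ tE (cT h b m) I) (S \ inner b m) (tD + 1)) ∧
  Fam p (G ⊔ tE (cT h b m) {1, 2}) (S \ inner b m) (tD + 2)

/-- NUMC: the inequalities -/
def NumcS : Prop := ∀ a m tU tD : ℕ, 3 ≤ m → m - 1 ≤ 2 * tU →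
  cc (tU + tD) * (2 ^ (m - 1) * EE (a + m - 2)) ≤ m * (cc (tD + 1) * EE a) ∧
  cc (tU + tD) * (2 ^ (m - 1) * EE (a + m - 1)) ≤ (m - 1) * (cc (tD + 1) * EE a) ∧
  cc (tU + tD) * (2 ^ (m - 1) * EE (a + m - 1)) ≤
    cc (tD + 1) * EE a + (m - 1) * (cc (tD + 2) * EE (a + 1)) ∧
  cc (tU + tD) * (2 ^ (m - 1) * EE (a + m)) ≤ (m - 1) * (cc (tD + 2) * EE (a + 1))

/-- ALGC: linear algebra; `a I`: the rest with the pairs `I` added -/
def AlgcS : Prop := ∀ (W : Submodule ℝ (Fin 3 → ℝ)) (U U2 bX : ℝ) (m : ℕ)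
  (a : Finset (Fin 3) → ℝ), 1 ≤ m → 0 ≤ U → (∀ I, 0 ≤ a I) → (∀ I, Inj W I → U ≤ a I) →
  (dfc W {1, 2} = 1 → U2 ≤ a {1, 2}) → bX = (m - 1) * a {1, 2} + a {0} →
  (dfc W ∅ = 0 ∧ m * U ≤ bX) ∨ (dfc W ∅ = 1 ∧ ((m - 1) * U ≤ bX ∨ U + (m - 1) * U2 ≤ bX)) ∨
  (2 ≤ dfc W ∅ ∧ ((m - 1) * U ≤ bX ∨ (m - 1) * U2 ≤ bX))

/-- CHEX: the structure lemma in the language of Defs.lean (helper41) -/
def ChexS : Prop := ∀ (V : Type) [Fintype V] [DecidableEq V] (G : SimpleGraph V) (S : Finset V),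
  ThreeConn G S → (∃ T P Q, Cut3 G S T P Q) →
  (∀ T P Q, Cut3 G S T P Q → ∃ v ∈ P, (nb G S v).card = 3) →
  (∀ v ∈ S, (nb G S v).card = 3 → ∃ h, Hub G S v h) →
  ∃ (h : V) (m : ℕ) (b : ℕ → V), Chain G S h m b ∧ 3 ≤ m ∧
    C3 (G ⊔ tE (cT h b m) {1, 2}) (S \ inner b m)

/-- TRI1: a triangle -/
def Tri1S : Prop := ∀ (V : Type) [Fintype V] [DecidableEq V] (G : SimpleGraph V) (T : Finset V),
  T.card = 3 → (∀ x ∈ T, ∀ y ∈ T, x ≠ y → G.Adj x y) → bet G T = 1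

/-- CASEC is in IfaceS.lean. Uses EES, KN, ZEX, WRK, KEY, SIDE, BNN, CHF, RKCH, FAMC, NUMC, ALGC,
CHEX, TRI1. -/
def CasecUses : Prop := True

end Pool.Agent.Xu.X2
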