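import Pool.Agent.Lib.MP_144d21_co.X2.Defs

/-!
# MP_144d21_co, project X2: module statements (sections 1-5, degree 3 without hub, assembly).
Proofs on paper: PaperS.md and PaperC.md in this folder. Every module may use the statements listed
under `Uses` as hypotheses (in this order).
-/

set_option autoImplicit false

namespace Pool.Agent.Xu.X2

open Finset

/-! ### E. The potential -/

/-- EES -/
def EesS : Prop := EE 0 = 1 ∧ (∀ d, 0 < EE d) ∧ (∀ d e, d ≤ e → EE e ≤ EE d) ∧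
  (∀ d, EE d ≤ 2 * EE (d + 1)) ∧ (∀ d, 3 / 2 * EE (d + 1) ≤ EE d) ∧
  (∀ d, 3 * EE (d + 2) = EE d) ∧ (∀ a b, EE (a + b) ≤ EE a * EE b) ∧
  (∀ j, (2 : ℝ) ^ (2 * j) * EE (2 * j) = (4 / 3) ^ j) ∧
  (∀ j, (2 : ℝ) ^ (2 * j + 1) * EE (2 * j + 1) = (4 / 3) ^ (j + 1))

/-! ### R. Ranks (section 1) -/

/-- KN: R1 -/
def KnS : Prop := ∀ (V : Type) [Fintype V] [DecidableEq V] (p : V → Fin 3 → ℝ), GP p →
  ∀ (G : SimpleGraph V) (S : Finset V), 3 ≤ S.card →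
  rk p G S + 6 ≤ 3 * S.card ∧ rk p (cl S) S + 6 = 3 * S.card

/-- ZEX: R2, 0-extensions -/
def ZexS : Prop := ∀ (V : Type) [Fintype V] [DecidableEq V] (p : V → Fin 3 → ℝ), GP p →
  ∀ (G : SimpleGraph V) (S : Finset V) (v : V), v ∈ S → (nb G S v).card ≤ 3 →
  rk p G S = rk p G (S.erase v) + (nb G S v).card ∧
  ∀ x ∈ rs p G S, x v = 0 → x ∈ rs p G (S.erase v)

/-- FOUR: R3, the 4-edge rule. Uses ZEX. -/
def FourS : Prop := ∀ (V : Type) [Fintype V] [DecidableEq V] (p : V → Fin 3 → ℝ), Gen p →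
  ∀ (G : SimpleGraph V) (S : Finset V) (v x : V), v ∈ S → x ∈ S → x ≠ v → x ∉ nb G S v →
  (nb G S v).card = 3 → row p v x ∈ rs p G S → Clus p G (S.erase v) (insert x (nb G S v))

/-- CLADD: R4. Uses K5DEP. -/
def CladdS : Prop := ∀ (V : Type) [Fintype V] [DecidableEq V] (p : V → Fin 3 → ℝ), GP p →
  ∀ (G : SimpleGraph V) (S : Finset V) (v : V), v ∈ S → Clus p G (S.erase v) (nb G S v) →
  rk p G S ≤ rk p G (S.erase v) + 3

/-- HINGE: R5, the hinge motion -/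
def HingeS : Prop := ∀ (V : Type) [Fintype V] [DecidableEq V] (p : V → Fin 3 → ℝ), GP p →
  ∀ (G : SimpleGraph V) (S1 S2 : Finset V), Sep G S1 S2 → (S1 ∩ S2).card ≤ 2 →
  ∀ x ∈ S1, x ∉ S2 → ∀ y ∈ S2, y ∉ S1 → row p x y ∉ rs p G (S1 ∪ S2)

/-- RST4: degree 4. Uses CLADD, RKNE, NECNT. -/
def Rst4S : Prop := ∀ (V : Type) [Fintype V] [DecidableEq V] (p : V → Fin 3 → ℝ), GP p →
  ∀ (G : SimpleGraph V) (S : Finset V) (v : V), v ∈ S → (nb G S v).card = 4 →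
  rk p G S = ne G S → ∃ a ∈ nb G S v, ∃ b ∈ nb G S v, row p a b ∉ rs p G (S.erase v)

/-- RST5: degree 5; `x` lists the neighbours, the star at `x 0` has rank at least 2.
Uses ST5, RKNE, NECNT. -/
def Rst5S : Prop := ∀ (V : Type) [Fintype V] [DecidableEq V] (p : V → Fin 3 → ℝ), GP p →
  ∀ (G : SimpleGraph V) (S : Finset V) (v : V), v ∈ S → (nb G S v).card = 5 →
  rk p G S = ne G S → ∃ x : Fin 5 → V, Function.Injective x ∧ univ.image x = nb G S v ∧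
    rk p G (S.erase v) + 2 ≤ rk p (G ⊔ stg x 0) (S.erase v)

/-- WRK: R7, one side -/
def WrkS : Prop := ∀ (V : Type) [Fintype V] [DecidableEq V] (p : V → Fin 3 → ℝ), GP p →
  ∀ (G : SimpleGraph V) (S : Finset V) (t : Fin 3 → V), Function.Injective t → tS t ⊆ S →
  (∀ I, rk p (G ⊔ tE t I) S + dfc (WW p G S t) I = rk p (G ⊔ cl (tS t)) S) ∧
  (∀ I, Inj (WW p G S t) I → Clus p (G ⊔ tE t I) S (tS t)) ∧
  (∀ ν ∈ WW p G S t, ∀ i, G.Adj (t (i + 1)) (t (i + 2)) → ν i = 0)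

/-- GLUX: R7, the main gluing fact. A vector of the row space that lives on one side. -/
def GluxS : Prop := ∀ (V : Type) [Fintype V] [DecidableEq V] (p : V → Fin 3 → ℝ), GP p →
  ∀ (G : SimpleGraph V) (S T P Q : Finset V), Cut3 G S T P Q → ∀ x ∈ rs p G S,
  (∀ v ∈ Q, x v = 0) → ∃ y ∈ rs p G (T ∪ P), ∃ z ∈ rs p G (T ∪ Q), z ∈ rs p (cl T) T ∧
    x = y + z

/-- WCUT: R7. Uses GLUX, KN. -/
def WcutS : Prop := ∀ (V : Type) [Fintype V] [DecidableEq V] (p : V → Fin 3 → ℝ), GP p →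
  ∀ (G : SimpleGraph V) (S T P Q : Finset V) (t : Fin 3 → V), Cut3 G S T P Q →
  Function.Injective t → tS t = T →
  WW p G S t = WW p G (T ∪ P) t ⊓ WW p G (T ∪ Q) t ∧
  rk p (G ⊔ cl T) S + 3 = rk p (G ⊔ cl T) (T ∪ P) + rk p (G ⊔ cl T) (T ∪ Q)

/-- GLUR: implied pairs inside one side. Uses GLUX. -/
def GlurS : Prop := ∀ (V : Type) [Fintype V] [DecidableEq V] (p : V → Fin 3 → ℝ), GP p →
  ∀ (G : SimpleGraph V) (S T P Q : Finset V), Cut3 G S T P Q → ∀ a ∈ T ∪ P, ∀ b ∈ T ∪ P,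
  row p a b ∈ rs p G S → row p a b ∈ rs p (G ⊔ cl T) (T ∪ P)

/-- SPLIT: R8. Uses ZEX, FOUR, K5DEP. -/
def SplitS : Prop := ∀ (V : Type) [Fintype V] [DecidableEq V] (p : V → Fin 3 → ℝ), Gen p →
  ∀ (G : SimpleGraph V) (S T P Q : Finset V), Cut3 G S T P Q → ∀ x ∈ P, ∀ y ∈ Q,
  row p x y ∈ rs p G S → Clus p (G ⊔ cl T) (T ∪ P) (insert x T)

/-- DCUT: degrees of freedom at a 3-cut. Uses WCUT, WRK, KN. -/
def DcutS : Prop := ∀ (V : Type) [Fintype V] [DecidableEq V] (p : V → Fin 3 → ℝ), GP p →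
  ∀ (G : SimpleGraph V) (S T P Q : Finset V) (t : Fin 3 → V), Cut3 G S T P Q →
  Function.Injective t → tS t = T →
  dd p G S = dd p (G ⊔ cl T) (T ∪ P) + dd p (G ⊔ cl T) (T ∪ Q) +
    dfc (WW p G (T ∪ P) t ⊓ WW p G (T ∪ Q) t) ∅ ∧
  ∀ I, dd p (G ⊔ tE t I) (T ∪ P) = dd p (G ⊔ cl T) (T ∪ P) + dfc (WW p G (T ∪ P) t) I

/-! ### B. Beta (section 2) -/

/-- BNN. Uses BETDC, CHIDC, CHIGL. -/
def BnnS : Prop := ∀ (V : Type) [Fintype V] [DecidableEq V] (G : SimpleGraph V) (S : Finset V),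
  Conn G S → 2 ≤ S.card → 0 ≤ bet G S

/-- BMON. Uses BNN, BETDC. -/
def BmonS : Prop := ∀ (V : Type) [Fintype V] [DecidableEq V] (G F : SimpleGraph V)
  (S : Finset V), Conn G S → 2 ≤ S.card → bet G S ≤ bet (G ⊔ F) S

/-- T1: the 3-cut formula -/
def T1S : Prop := ∀ (V : Type) [Fintype V] [DecidableEq V] (G : SimpleGraph V)
  (S T P Q : Finset V) (t : Fin 3 → V), ThreeConn G S → Cut3 G S T P Q →
  Function.Injective t → tS t = T →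
  bet G S = ba G (T ∪ P) t * ba G (T ∪ Q) t -
    ∑ i ∈ mis G t, bc G (T ∪ P) t i * bc G (T ∪ Q) t i

/-- AF: B2, the side with the pairs `I` added. Uses BNN, BETDC. -/
def AfS : Prop := ∀ (V : Type) [Fintype V] [DecidableEq V] (G : SimpleGraph V)
  (S T P Q : Finset V) (t : Fin 3 → V), ThreeConn G S → Cut3 G S T P Q →
  Function.Injective t → tS t = T →
  (∀ I, (I ≠ ∅ ∨ mis G t ≠ univ) → bet (G ⊔ tE t I) (T ∪ P) =
    ba G (T ∪ P) t - ∑ i ∈ mis G t \ I, bc G (T ∪ P) t i) ∧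
  (mis G t = univ → ∃ τ : ℤ, 0 ≤ τ ∧ (∀ i, τ ≤ bc G (T ∪ P) t i) ∧
    bet G (T ∪ P) = ba G (T ∪ P) t - ∑ i, bc G (T ∪ P) t i + τ) ∧
  (∀ i, 0 ≤ bc G (T ∪ P) t i) ∧ (∀ I, 0 ≤ bet (G ⊔ tE t I) (T ∪ P))

/-- DG3: B3 for degree 3. Uses BETDC. -/
def Dg3S : Prop := ∀ (V : Type) [Fintype V] [DecidableEq V] (G : SimpleGraph V)
  (S : Finset V) (v : V) (t : Fin 3 → V), ThreeConn G S → v ∈ S → Function.Injective t →
  nb G S v = tS t → ∀ i, bet G S = bet (G ⊔ tE t {i + 1, i + 2}) (S.erase v) +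
    bet (G ⊔ tE t {i}) (S.erase v)

/-- STX: B3, the star expansion. Uses BETDC. -/
def StxS : Prop := ∀ (V : Type) [Fintype V] [DecidableEq V] (G : SimpleGraph V)
  (S : Finset V) (v : V) (k : ℕ) (x : Fin (k + 1) → V), ThreeConn G S → v ∈ S →
  Function.Injective x → univ.image x = nb G S v →
  bet G S = ∑ i : Fin k, bet (G ⊔ stg x i.castSucc) (S.erase v)

/-! ### C. Connectivity (section 3) -/

/-- TMON: more edges -/
def TmonS : Prop := ∀ (V : Type) [Fintype V] [DecidableEq V] (G G' : SimpleGraph V)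
  (S : Finset V), G ≤ G' → ThreeConn G S → ThreeConn G' S

/-- SIDE: sides of 3-cuts -/
def SideS : Prop := ∀ (V : Type) [Fintype V] [DecidableEq V] (G : SimpleGraph V)
  (S T P Q : Finset V), ThreeConn G S → Cut3 G S T P Q →
  Conn G (T ∪ P) ∧ ThreeConn (G ⊔ cl T) (T ∪ P) ∧
  ∀ a ∈ T, (∃ b ∈ P, G.Adj a b) ∧ ∃ b ∈ Q, G.Adj a b

/-- KEY: C1. Uses HINGE. -/
def KeyS : Prop := ∀ (V : Type) [Fintype V] [DecidableEq V] (p : V → Fin 3 → ℝ), GP p →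
  ∀ (G F : SimpleGraph V) (S T P Q : Finset V), ThreeConn G S → Cut3 G S T P Q → F ≤ cl T →
  Clus p (G ⊔ F) (T ∪ P) T → ThreeConn (G ⊔ F) (T ∪ P)

/-- FAMR: C2. Uses GLUR, SPLIT. -/
def FamrS : Prop := ∀ (V : Type) [Fintype V] [DecidableEq V] (p : V → Fin 3 → ℝ), Gen p →
  ∀ (G F : SimpleGraph V) (S T P Q : Finset V) (t : ℕ), Cut3 G S T P Q →
  F ≤ cl T → Clus p (G ⊔ F) (T ∪ P) T → Fam p G S t → Fam p (G ⊔ F) (T ∪ P) t

/-- `Q` is an inclusion-minimal side -/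
def MinSide {V : Type} [Fintype V] [DecidableEq V] (G : SimpleGraph V) (S Q : Finset V) : Prop :=
  ∀ T' P' Q', Cut3 G S T' P' Q' → Q' ⊆ Q → Q' = Q

/-- MIN1: C3 (ii) -/
def Min1S : Prop := ∀ (V : Type) [Fintype V] [DecidableEq V] (G : SimpleGraph V)
  (S T P Q : Finset V) (t : Fin 3 → V), ThreeConn G S → Cut3 G S T P Q → 2 ≤ Q.card →
  MinSide G S Q → Function.Injective t → tS t = T →
  ∀ i, ThreeConn (G ⊔ tE t {i + 1, i + 2}) (T ∪ Q)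

/-- MIN2: C3 (iii) -/
def Min2S : Prop := ∀ (V : Type) [Fintype V] [DecidableEq V] (G F : SimpleGraph V)
  (S T P Q : Finset V), Cut3 G S T P Q → MinSide G S Q → F ≤ cl T →
  ∀ T' P' Q', Cut3 (G ⊔ F) (T ∪ Q) T' P' Q' → ∃ x ∈ P', x ∈ T

/-- NC1: C4 -/
def Nc1S : Prop := ∀ (V : Type) [Fintype V] [DecidableEq V] (G : SimpleGraph V)
  (S : Finset V) (v : V), ThreeConn G S → (∀ T P Q, ¬ Cut3 G S T P Q) → 5 ≤ S.card → v ∈ S →
  4 ≤ (nb G S v).card ∧ ThreeConn G (S.erase v) ∧ ∀ F, F ≤ cl (nb G S v) →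
    ∀ T P Q, Cut3 (G ⊔ F) (S.erase v) T P Q → ∃ x ∈ P, x ∈ nb G S v

/-- NC2: C4 -/
def Nc2S : Prop := ∀ (V : Type) [Fintype V] [DecidableEq V] (G : SimpleGraph V)
  (S : Finset V) (v w : V), ThreeConn G S → (∀ T P Q, ¬ Cut3 G S T P Q) → 5 ≤ S.card →
  v ∈ S → w ∈ S → G.Adj v w → ThreeConn (del G v w) S ∧
    ∀ T P Q, Cut3 (del G v w) S T P Q → v ∈ P ∨ w ∈ P

/-! ### Section 4: no separation of order 3 -/

/-- K4: four vertices -/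
def K4S : Prop := ∀ (V : Type) [Fintype V] [DecidableEq V] (G : SimpleGraph V) (S : Finset V),
  ThreeConn G S → S.card = 4 → bet G S = 2

/-- NCA: an implied edge. Uses NC2, BETDC, BNN, CON2, EES, NECNT. -/
def NcaS : Prop := ∀ (V : Type) [Fintype V] [DecidableEq V] (p : V → Fin 3 → ℝ)
  (G : SimpleGraph V) (S : Finset V) (v w : V), ThreeConn G S →
  (∀ T P Q, ¬ Cut3 G S T P Q) → 5 ≤ S.card → v ∈ S → w ∈ S → G.Adj v w →
  rk p (del G v w) S = rk p G S → IH p G S → FF p G S ≤ (bet G S : ℝ)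

/-- NCB4: degree 4. Uses EES, NC1, RST4, STX, NECNT, RKNE, KN, TMON. -/
def Ncb4S : Prop := ∀ (V : Type) [Fintype V] [DecidableEq V] (p : V → Fin 3 → ℝ), GP p →
  ∀ (G : SimpleGraph V) (S : Finset V) (v : V), ThreeConn G S →
  (∀ T P Q, ¬ Cut3 G S T P Q) → 5 ≤ S.card → v ∈ S → (nb G S v).card = 4 →
  rk p G S = ne G S → IH p G S → FF p G S ≤ (bet G S : ℝ)

/-- NCB5: degree 5. Uses EES, NC1, RST5, STX, NECNT, RKNE, KN, TMON. -/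
def Ncb5S : Prop := ∀ (V : Type) [Fintype V] [DecidableEq V] (p : V → Fin 3 → ℝ), GP p →
  ∀ (G : SimpleGraph V) (S : Finset V) (v : V), ThreeConn G S →
  (∀ T P Q, ¬ Cut3 G S T P Q) → 5 ≤ S.card → v ∈ S → (nb G S v).card = 5 →
  rk p G S = ne G S → IH p G S → FF p G S ≤ (bet G S : ℝ)

/-- NOCUT. Uses EES, K4, NCA, NCB4, NCB5, RKRED, HAND, KN, NC1. -/
def NocutS : Prop := ∀ (V : Type) [Fintype V] [DecidableEq V] (p : V → Fin 3 → ℝ), GP p →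
  ∀ (G : SimpleGraph V) (S : Finset V), ThreeConn G S → (∀ T P Q, ¬ Cut3 G S T P Q) →
  IH p G S → FF p G S ≤ (bet G S : ℝ)

/-! ### Section 5: the smallest side has at least two vertices -/

/-- OMEGA: matroid union on three elements -/
def OmegaS : Prop := ∀ (WR WL : Submodule ℝ (Fin 3 → ℝ)) (D : Finset (Fin 3)),
  (∀ ν ∈ WR, ∀ i, i ∉ D → ν i = 0) → (∀ ν ∈ WL, ∀ i, i ∉ D → ν i = 0) → WR ⊓ WL = ⊥ →
  ∃ F ⊆ D, Inj WR F ∧ Inj WL (D \ F)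

/-- ALGA: the inequalities of section 5. `A, A'`: all edges present; `b, b'`: contractions;
`aR I, aL I`: the sides with the pairs `I` added; `U, L0, L1`: lower bounds. Uses OMEGA. -/
def AlgaS : Prop := ∀ (WR WL : Submodule ℝ (Fin 3 → ℝ)) (D : Finset (Fin 3))
  (A A' τ τ' bX U L0 L1 : ℝ) (b b' : Fin 3 → ℝ) (aR aL : Finset (Fin 3) → ℝ),
  (∀ ν ∈ WR, ∀ i, i ∉ D → ν i = 0) → (∀ ν ∈ WL, ∀ i, i ∉ D → ν i = 0) →
  bX = A * A' - ∑ i ∈ D, b i * b' i →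
  (∀ I ⊆ D, (I ≠ ∅ ∨ D ≠ univ) → aR I = A - ∑ i ∈ D \ I, b i) →
  (∀ I ⊆ D, (I ≠ ∅ ∨ D ≠ univ) → aL I = A' - ∑ i ∈ D \ I, b' i) →
  (D = univ → 0 ≤ τ ∧ (∀ i, τ ≤ b i) ∧ aR ∅ = A - ∑ i, b i + τ) →
  (D = univ → 0 ≤ τ' ∧ (∀ i, τ' ≤ b' i) ∧ aL ∅ = A' - ∑ i, b' i + τ') →
  (∀ i, 0 ≤ b i) → (∀ i, 0 ≤ b' i) → (∀ I ⊆ D, 0 ≤ aR I) → (∀ I ⊆ D, 0 ≤ aL I) →
  0 ≤ U → 0 ≤ L1 → L1 ≤ L0 →
  (∀ I ⊆ D, Inj WR I → U ≤ aR I) → (∀ I ⊆ D, Inj WL I → L0 ≤ aL I) →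
  (∀ i ∈ D, L1 ≤ aL (D.erase i)) →
  (dfc (WR ⊓ WL) ∅ = 0 → U * L0 ≤ bX) ∧ (dfc (WR ⊓ WL) ∅ = 1 → U * L1 ≤ bX) ∧
  (dfc (WR ⊓ WL) ∅ = 2 → U * min L1 (L0 / 2) ≤ bX) ∧ (dfc (WR ⊓ WL) ∅ = 3 → U * (L1 / 2) ≤ bX)

/-- CASEA. Uses EES, KN, WRK, DCUT, T1, AF, KEY, FAMR, MIN1, MIN2, SIDE, ALGA. -/
def CaseaS : Prop := ∀ (V : Type) [Fintype V] [DecidableEq V] (p : V → Fin 3 → ℝ), Gen p →
  ∀ (G : SimpleGraph V) (S T P Q : Finset V), ThreeConn G S → IH p G S → Cut3 G S T P Q →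
  2 ≤ Q.card → MinSide G S Q → Bd p G S

/-! ### Section 6: a vertex of degree 3 without hub -/

/-- `h` is a hub of `v` (for `v` of degree 3 in a 3-connected graph, `v` has then a neighbour on
each side) -/
def Hub {V : Type} [Fintype V] [DecidableEq V] (G : SimpleGraph V) (S : Finset V) (v h : V) : Prop :=
  G.Adj v h ∧ ∃ w P Q, Cut3 G S {v, h, w} P Q

/-- NOHUB -/
def NohubS : Prop := ∀ (V : Type) [Fintype V] [DecidableEq V] (G : SimpleGraph V)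
  (S : Finset V) (v : V) (t : Fin 3 → V), ThreeConn G S → 5 ≤ S.card → v ∈ S →
  Function.Injective t → nb G S v = tS t → ∀ i, ¬ Hub G S v (t i) →
  ThreeConn (G ⊔ tE t {i + 1, i + 2}) (S.erase v)

/-- FAMB. Uses ZEX, FOUR. -/
def FambS : Prop := ∀ (V : Type) [Fintype V] [DecidableEq V] (p : V → Fin 3 → ℝ), Gen p →
  ∀ (G : SimpleGraph V) (S : Finset V) (v : V) (t : Fin 3 → V) (n : ℕ), ThreeConn G S →
  5 ≤ S.card → v ∈ S → Function.Injective t → nb G S v = tS t →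
  ¬ Clus p G (S.erase v) (tS t) → Fam p G S n →
  ∀ i, Fam p (G ⊔ tE t {i + 1, i + 2}) (S.erase v) (n + 1)

/-- ALGB: linear algebra of section 6; `a I`: `R` with the pairs `I` added -/
def AlgbS : Prop := ∀ (W : Submodule ℝ (Fin 3 → ℝ)) (U bX : ℝ) (a : Finset (Fin 3) → ℝ),
  0 ≤ U → (∀ I, 0 ≤ a I) → (∀ I, Inj W I → U ≤ a I) →
  (∀ i, bX = a {i + 1, i + 2} + a {i}) → a univ ≤ 2 * bX →
  (dfc W ∅ = 0 → 2 * U ≤ bX) ∧ (dfc W ∅ = 2 → U ≤ bX) ∧ (dfc W ∅ = 3 → U / 2 ≤ bX) ∧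
  (dfc W ∅ = 1 → 2 * U ≤ bX ∨ ∃ i, Inj W {i} ∧ dfc W {i + 1, i + 2} = 1)

/-- DG3A: all three edges added at a vertex of degree 3. Uses DG3, BETDC, BNN, BMON. -/
def Dg3aS : Prop := ∀ (V : Type) [Fintype V] [DecidableEq V] (G : SimpleGraph V)
  (S : Finset V) (v : V) (t : Fin 3 → V), ThreeConn G S → 5 ≤ S.card → v ∈ S →
  Function.Injective t → nb G S v = tS t →
  bet (G ⊔ tE t univ) (S.erase v) ≤ 2 * bet G S

/-- CASEB. Uses EES, KN, ZEX, WRK, DG3, DG3A, ALGB, KEY, FAMR, NOHUB, FAMB, SIDE, BNN. -/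
def CasebS : Prop := ∀ (V : Type) [Fintype V] [DecidableEq V] (p : V → Fin 3 → ℝ), Gen p →
  ∀ (G : SimpleGraph V) (S : Finset V) (v : V), ThreeConn G S → 5 ≤ S.card → IH p G S → v ∈ S →
  (nb G S v).card = 3 → (∀ h, ¬ Hub G S v h) → Bd p G S

/-- CASEC (IfaceC.lean): every side contains a vertex of degree 3, every vertex of degree 3 has a
hub -/
def CasecS : Prop := ∀ (V : Type) [Fintype V] [DecidableEq V] (p : V → Fin 3 → ℝ), Gen p →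
  ∀ (G : SimpleGraph V) (S : Finset V), ThreeConn G S → 5 ≤ S.card → IH p G S →
  (∃ T P Q, Cut3 G S T P Q) → (∀ T P Q, Cut3 G S T P Q → ∃ v ∈ P, (nb G S v).card = 3) →
  (∀ v ∈ S, (nb G S v).card = 3 → ∃ h, Hub G S v h) → Bd p G S

/-! ### Assembly -/

/-- THMS: Theorem S'. Uses NOCUT, CASEA, CASEB, CASEC, EES, KN, DEGGE. -/
def ThmsS : Prop := ∀ (V : Type) [Fintype V] [DecidableEq V] (p : V → Fin 3 → ℝ), Gen p →
  ∀ (G : SimpleGraph V) (S : Finset V), ThreeConn G S → Bd p G S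

/-- TWO: (II). Uses THMS. -/
def TwoS : Prop := ∀ (V : Type) [Fintype V] [DecidableEq V] (p : V → Fin 3 → ℝ), Gen p →
  ∀ (G : SimpleGraph V) (S : Finset V), ThreeConn G S → (∀ T P Q, ¬ Cut3 G S T P Q) →
  FF p G S ≤ (bet G S : ℝ)

end Pool.Agent.Xu.X2
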