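import Pool.Agent.Lib.MP_144d21_co.X2.Defs
import Pool.Agent.Lib.MP_144d21_co.PSI.Iface

/-!
# MP_144d21_co, project X2: the inequality IQ `beta(G) * P(G,4) >= 3 * 2^n`. Definitions and the
statements of the steps of the induction (helper86).
-/

set_option autoImplicit false

namespace Pool.Agent.Xu.X2

open Finset

/-- `3 * 2 ^ n ≤ beta * P(4)`, equality only for chordal graphs -/
def IQ {V : Type} [Fintype V] [DecidableEq V] (G : SimpleGraph V) (S : Finset V) : Prop :=
  3 * 2 ^ S.card ≤ bet G S * ((cols G S 4).card : ℤ) ∧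
    (bet G S * ((cols G S 4).card : ℤ) = 3 * 2 ^ S.card → ChordalOn G S)

/-- the induction hypothesis: fewer vertices, or the same number of vertices and more edges -/
def IHQ {V : Type} [Fintype V] [DecidableEq V] (G : SimpleGraph V) (S : Finset V) : Prop :=
  ∀ (G' : SimpleGraph V) (S' : Finset V),
    (S'.card < S.card ∨ (S'.card = S.card ∧ ne G S < ne G' S')) →
    TwoConn G' S' → (cols G' S' 4).Nonempty → IQ G' S'

/-- IQ3: `K_2` and `K_3` -/
def Iq3S : Prop := ∀ (V : Type) [Fintype V] [DecidableEq V] (G : SimpleGraph V) (S : Finset V),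
  TwoConn G S → S.card ≤ 3 → IQ G S

/-- CUT2 (helper34) -/
def Cut2S : Prop := ∀ (V : Type) [Fintype V] [DecidableEq V] (G : SimpleGraph V)
  (S1 S2 : Finset V) (x y : V), TwoConn G (S1 ∪ S2) → S1 ∩ S2 = {x, y} → x ≠ y → Sep G S1 S2 →
  ¬ S1 ⊆ S2 → ¬ S2 ⊆ S1 → (cols G (S1 ∪ S2) 4).Nonempty → IHQ G (S1 ∪ S2) → IQ G (S1 ∪ S2)

/-- DEG3 (helper44): a vertex of degree 3 in a 3-connected graph (`K_4` included) -/
def Deg3S : Prop := ∀ (V : Type) [Fintype V] [DecidableEq V] (G : SimpleGraph V) (S : Finset V)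
  (v : V), ThreeConn G S → v ∈ S → (nb G S v).card = 3 → (cols G S 4).Nonempty → IHQ G S → IQ G S

/-- CUT3 (helper44, helper35): a separation of order 3, all degrees at least 4 -/
def Cut3S : Prop := ∀ (V : Type) [Fintype V] [DecidableEq V] (G : SimpleGraph V) (S : Finset V),
  ThreeConn G S → (∀ v ∈ S, 4 ≤ (nb G S v).card) → (∃ T P Q, Cut3 G S T P Q) →
  (cols G S 4).Nonempty → IHQ G S → IQ G S

/-- THEOREM S' for graphs without separation of order 3 -/
def S4S : Prop := ∀ (V : Type) [Fintype V] [DecidableEq V] (G : SimpleGraph V) (S : Finset V)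
  (p : V → Fin 3 → ℝ), Gen p → ThreeConn G S → (¬ ∃ T P Q, Cut3 G S T P Q) →
  FF p G S ≤ (bet G S : ℝ)

/-- IQ4 (helper60). Uses S4S, PsimS, THMA, RKD3. -/
def Iq4S : Prop := ∀ (V : Type) [Fintype V] [DecidableEq V] (G : SimpleGraph V) (S : Finset V),
  ThreeConn G S → 5 ≤ S.card → (¬ ∃ T P Q, Cut3 G S T P Q) → (cols G S 4).Nonempty → IQ G S

/-- the inequality IQ for all 2-connected graphs -/
def IqS : Prop := ∀ (V : Type) [Fintype V] [DecidableEq V] (G : SimpleGraph V) (S : Finset V),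
  TwoConn G S → (cols G S 4).Nonempty → IQ G S

end Pool.Agent.Xu.X2
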